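import Pool.Agent.W312.TP.Stm
import Pool.Agent.H673R2.TsTree

/-!
Project TP, part UP: removing a vertex of degree two from a tree spanner instance.
-/

set_option autoImplicit false

namespace Pool.Agent.W790.TP

open Pool.Agent.H673R2.Ts Pool.Agent.W312.TP

theorem exists_closer {V : Type*} {T : SimpleGraph V} (hT : T.Connected) {r x : V} (h : x ≠ r) :
    ∃ y, T.Adj x y ∧ T.dist r y + 1 = T.dist r x := by
  obtain ⟨p, hp⟩ := hT.exists_walk_length_eq_dist x r
  cases p with
  | nil => exact absurd rfl h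
  | @cons _ y _ h1 q =>
    refine ⟨y, h1, ?_⟩
    have h2 : T.dist y r ≤ q.length := SimpleGraph.dist_le q
    have h3 := hT.dist_triangle (u := r) (v := y) (w := x)
    have h4 : T.dist y x = 1 := SimpleGraph.dist_eq_one_iff_adj.2 h1.symm
    rw [SimpleGraph.Walk.length_cons] at hp
    rw [SimpleGraph.dist_comm (u := y)] at h2
    rw [SimpleGraph.dist_comm (u := x)] at hp
    omega

/-- the projection of the last vertex to `A` -/
def ph {n : ℕ} (A : Fin n) (x : Fin (n + 1)) : Fin n :=
  if h : (x : ℕ) < n then ⟨x, h⟩ else A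

theorem ph_cast {n : ℕ} (A x : Fin n) : ph A x.castSucc = x := by
  simp [ph]

theorem ph_last {n : ℕ} (A : Fin n) : ph A (Fin.last n) = A := by
  simp [ph]

theorem up_core {n : ℕ} (T' : SimpleGraph (Fin (n + 1))) (hT : T'.IsTree) (A B : Fin n)
    (hAB : A ≠ B) (hmA : T'.Adj (Fin.last n) A.castSucc)
    (hm : ∀ z, T'.Adj (Fin.last n) z → z = A.castSucc ∨ z = B.castSucc) :
    ∃ T : SimpleGraph (Fin n), T.IsTree ∧
      (∀ x y, T.Adj x y → T'.Adj x.castSucc y.castSucc ∨ (x = A ∧ y = B) ∨ (x = B ∧ y = A)) ∧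
      (∀ x y, T.dist x y ≤ T'.dist x.castSucc y.castSucc) ∧
      ∀ c, 2 ≤ c → T'.dist B.castSucc (Fin.last n) ≤ c → T.dist A B ≤ c - 1 := by
  have hcs : ∀ x : Fin n, x ≠ A → x.castSucc ≠ A.castSucc := fun x hx h =>
    hx (Fin.castSucc_injective n h)
  have hex : ∀ x : Fin n, ∃ y, x ≠ A →
      T'.Adj x.castSucc y ∧ T'.dist A.castSucc y + 1 = T'.dist A.castSucc x.castSucc := by
    intro x
    by_cases hx : x = A
    · exact ⟨A.castSucc, fun h => absurd hx h⟩
    · obtain ⟨y, hy⟩ := exists_closer hT.connected (hcs x hx)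
      exact ⟨y, fun _ => hy⟩
  choose par' hpar' using hex
  set par : Fin n → Fin n := fun x => ph A (par' x) with hpar
  set lev : Fin n → ℕ := fun x => T'.dist A.castSucc x.castSucc with hlev
  have hdec : ∀ x, x ≠ A → lev (par x) < lev x := by
    intro x hx
    obtain ⟨h1, h2⟩ := hpar' x hx
    rcases Fin.eq_castSucc_or_eq_last (par' x) with ⟨z, hz⟩ | hz
    · rw [hpar]
      simp only [hz, ph_cast]
      rw [hz] at h2
      simp only [hlev]
      omega
    · rw [hpar]
      simp only [hz, ph_last, hlev, SimpleGraph.dist_self]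
      omega
  have hTree := isTree_of_parent A par lev hdec
  set T := SimpleGraph.fromRel fun x y : Fin n => x ≠ A ∧ y = par x with hTdef
  have hadj : ∀ x, x ≠ A → T.Adj x (par x) := by
    intro x hx
    rw [hTdef, SimpleGraph.fromRel_adj]
    refine ⟨fun h => ?_, Or.inl ⟨hx, rfl⟩⟩
    have := hdec x hx
    rw [← h] at this
    omega
  have hone : ∀ x y, x ≠ A → y = par x →
      T'.Adj x.castSucc y.castSucc ∨ (x = A ∧ y = B) ∨ (x = B ∧ y = A) := by
    intro x y hx hy
    obtain ⟨h1, h2⟩ := hpar' x hx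
    rcases Fin.eq_castSucc_or_eq_last (par' x) with ⟨z, hz⟩ | hz
    · left
      have : y = z := by rw [hy, hpar]; simp only [hz, ph_cast]
      rw [this, ← hz]
      exact h1
    · right; right
      rw [hz] at h1
      refine ⟨?_, ?_⟩
      · rcases hm _ h1.symm with h | h
        · exact absurd h (hcs x hx)
        · exact Fin.castSucc_injective n h
      · rw [hy, hpar]; simp only [hz, ph_last]
  have hkey0 : ∀ x' y', T'.Adj x' y' → T'.dist A.castSucc x' = T'.dist A.castSucc y' + 1 →
      ph A x' = ph A y' ∨ T.Adj (ph A x') (ph A y') := by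
    intro x' y' hxy hd
    rcases Fin.eq_castSucc_or_eq_last x' with ⟨x, hx⟩ | hx
    · right
      subst hx
      have hxA : x ≠ A := by
        rintro rfl
        rw [SimpleGraph.dist_self] at hd
        omega
      obtain ⟨h1, h2⟩ := hpar' x hxA
      have : par' x = y' := by
        by_contra hne
        have := dist_next hT hxy.symm h1 (Ne.symm hne) hd
        omega
      rw [ph_cast, ← this]
      exact hadj x hxA
    · left
      subst hx
      have h1 : T'.dist A.castSucc (Fin.last n) = 1 := SimpleGraph.dist_eq_one_iff_adj.2 hmA.symm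
      have h2 : T'.dist A.castSucc y' = 0 := by omega
      rw [← eq_of_dist_eq_zero hT h2, ph_last, ph_cast]
  have hkey : ∀ x' y', T'.Adj x' y' → ph A x' = ph A y' ∨ T.Adj (ph A x') (ph A y') := by
    intro x' y' hxy
    rcases hT.dist_eq_dist_add_one_of_adj A.castSucc hxy with h | h
    · exact hkey0 x' y' hxy h
    · rcases hkey0 y' x' hxy.symm h with h | h
      · exact Or.inl h.symm
      · exact Or.inr h.symm
  have hwalk : ∀ x' y' (p : T'.Walk x' y'), T.dist (ph A x') (ph A y') ≤ p.length := by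
    intro x' y' p
    induction p with
    | nil => simp
    | @cons u v w h q ih =>
      rw [SimpleGraph.Walk.length_cons]
      rcases hkey u v h with h1 | h1
      · rw [h1]; omega
      · have h2 := hTree.connected.dist_triangle (u := ph A u) (v := ph A v) (w := ph A w)
        have h3 : T.dist (ph A u) (ph A v) = 1 := SimpleGraph.dist_eq_one_iff_adj.2 h1
        omega
  have hdist : ∀ x y, T.dist x y ≤ T'.dist x.castSucc y.castSucc := by
    intro x y
    obtain ⟨p, hp⟩ := hT.connected.exists_walk_length_eq_dist x.castSucc y.castSucc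
    have := hwalk _ _ p
    rw [ph_cast, ph_cast] at this
    omega
  refine ⟨T, hTree, ?_, hdist, ?_⟩
  · intro x y hxy
    rw [hTdef, SimpleGraph.fromRel_adj] at hxy
    rcases hxy with ⟨-, ⟨h1, h2⟩ | ⟨h1, h2⟩⟩
    · exact hone x y h1 h2
    · rcases hone y x h1 h2 with h | ⟨h, h'⟩ | ⟨h, h'⟩
      · exact Or.inl h.symm
      · exact Or.inr (Or.inr ⟨h', h⟩)
      · exact Or.inr (Or.inl ⟨h', h⟩)
  · intro c hc hB
    have hne : Fin.last n ≠ B.castSucc := (Fin.castSucc_lt_last B).ne'
    obtain ⟨z, hz1, hz2⟩ := exists_closer hT.connected hne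
    rcases hm z hz1 with rfl | rfl
    · have := hdist A B
      rw [SimpleGraph.dist_comm] at hz2
      omega
    · have h1 := hkey _ _ hz1
      rw [ph_last, ph_cast] at h1
      rcases h1 with h1 | h1
      · exact absurd h1 hAB
      · have : T.dist A B = 1 := SimpleGraph.dist_eq_one_iff_adj.2 h1
        omega

theorem proof_UP : Pool.Agent.W312.TP.UP := by
  intro n E C a b c ha hb hab hE hc hEn
  rintro ⟨T', hT, hadj, hdist⟩
  have hlast : ∀ z, T'.Adj (Fin.last n) z →
      z = (⟨a, ha⟩ : Fin n).castSucc ∨ z = (⟨b, hb⟩ : Fin n).castSucc := by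
    intro z hz
    rcases hadj _ _ hz with (h | h | h) | (h | h | h)
    · have := (hEn _ h).1
      simp at this
    · simp only [Fin.val_last, Prod.mk.injEq] at h
      omega
    · simp only [Fin.val_last, Prod.mk.injEq] at h
      omega
    · have := (hEn _ h).2
      simp at this
    · simp only [Fin.val_last, Prod.mk.injEq] at h
      left; ext; simp [h.1]
    · simp only [Fin.val_last, Prod.mk.injEq] at h
      right; ext; simp [h.1]
  have hfin : ∀ A B : Fin n, A ≠ B →
      ((A : ℕ) = a ∧ (B : ℕ) = b ∨ (A : ℕ) = b ∧ (B : ℕ) = a) →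
      T'.Adj (Fin.last n) A.castSucc → WS n E {z | z ∈ C ∨ z = (a, b, c - 1)} := by
    intro A B hAB hor hmA
    have hm : ∀ z, T'.Adj (Fin.last n) z → z = A.castSucc ∨ z = B.castSucc := by
      intro z hz
      rcases hor with ⟨h1, h2⟩ | ⟨h1, h2⟩
      · have e1 : A = ⟨a, ha⟩ := Fin.ext h1
        have e2 : B = ⟨b, hb⟩ := Fin.ext h2
        rw [e1, e2]; exact hlast z hz
      · have e1 : A = ⟨b, hb⟩ := Fin.ext h1
        have e2 : B = ⟨a, ha⟩ := Fin.ext h2
        rw [e1, e2]; exact (hlast z hz).symm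
    obtain ⟨T, hT1, hT2, hT3, hT4⟩ := up_core T' hT A B hAB hmA hm
    have hBm : T'.dist B.castSucc (Fin.last n) ≤ c := by
      apply hdist
      rcases hor with ⟨h1, h2⟩ | ⟨h1, h2⟩
      · right; right; simp [h2]
      · right; left; simp [h2]
    have hfin := hT4 c hc hBm
    refine ⟨T, hT1, ?_, ?_⟩
    · intro x y hxy
      rcases hT2 x y hxy with h | h
      · rcases hadj _ _ h with (h | h | h) | (h | h | h)
        · exact Or.inl h
        · simp only [Fin.val_castSucc, Prod.mk.injEq] at h
          have := y.2; omega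
        · simp only [Fin.val_castSucc, Prod.mk.injEq] at h
          have := y.2; omega
        · exact Or.inr h
        · simp only [Fin.val_castSucc, Prod.mk.injEq] at h
          have := x.2; omega
        · simp only [Fin.val_castSucc, Prod.mk.injEq] at h
          have := x.2; omega
      · have : (((x : ℕ), (y : ℕ)) = (a, b)) ∨ (((x : ℕ), (y : ℕ)) = (b, a)) := by
          rcases h with ⟨rfl, rfl⟩ | ⟨rfl, rfl⟩ <;> rcases hor with ⟨h1, h2⟩ | ⟨h1, h2⟩ <;>
            simp [h1, h2]
        rcases this with h | h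
        · have h' : ((y : ℕ), (x : ℕ)) = (b, a) := by
            simp only [Prod.mk.injEq] at h ⊢; exact ⟨h.2, h.1⟩
          rw [h, h']; exact hE
        · have h' : ((y : ℕ), (x : ℕ)) = (a, b) := by
            simp only [Prod.mk.injEq] at h ⊢; exact ⟨h.2, h.1⟩
          rw [h, h']; exact hE.symm
    · intro x y d hd
      rcases hd with hd | hd
      · exact (hT3 x y).trans (hdist _ _ _ (Or.inl hd))
      · simp only [Prod.mk.injEq] at hd
        obtain ⟨h1, h2, h3⟩ := hd
        rw [h3]
        rcases hor with ⟨h4, h5⟩ | ⟨h4, h5⟩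
        · have e1 : x = A := Fin.ext (by omega)
          have e2 : y = B := Fin.ext (by omega)
          rw [e1, e2]; exact hfin
        · have e1 : x = B := Fin.ext (by omega)
          have e2 : y = A := Fin.ext (by omega)
          rw [e1, e2, SimpleGraph.dist_comm]; exact hfin
  have hne : Fin.last n ≠ (⟨a, ha⟩ : Fin n).castSucc := (Fin.castSucc_lt_last _).ne'
  obtain ⟨z, hz1, -⟩ := exists_closer hT.connected hne
  have hABne : (⟨a, ha⟩ : Fin n) ≠ ⟨b, hb⟩ := fun h => hab (Fin.mk.inj_iff.1 h)
  rcases hlast z hz1 with rfl | rfl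
  · exact hfin ⟨a, ha⟩ ⟨b, hb⟩ hABne (Or.inl ⟨rfl, rfl⟩) hz1
  · exact hfin ⟨b, hb⟩ ⟨a, ha⟩ hABne.symm (Or.inr ⟨rfl, rfl⟩) hz1

end Pool.Agent.W790.TP
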